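import Pool.Agent.H225.EP4

/-!
# Exact patterns of consecutive almost prime quadruplets, at integers with restricted digits

A quadruplet at `m` are the numbers `m, m + 2, m + 6, m + 8`, i.e. four of five consecutive odd integers.
Let `b ≥ 2` be a base and let the digits of an integer `n < b^K` be restricted: the `i`-th digit belongs
to a set `A i`, where the sets `A i` are arbitrary, depend on the place `i < K`, and have the only
property that the number `∏ |A i|` of these integers is at least `e^{-δK} b^K`, where the constant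
`δ > 0` does not depend on `b`.  Let `N` be an arbitrary base point up to a fixed power of `b^K`, and
`m = N + n`.  We consider ALL patterns `H` of `k` elements in an interval `[0, c K^4]` such that the
product of the numbers `n + h + q`, `h ∈ H`, `q ∈ {0, 2, 6, 8}`, has no fixed prime divisor: the length of
the pattern may be comparable to the expected mean distance of the prime quadruplets near `m`.

The number of the `n` such that there are prime quadruplets at all `m + h`, `h ∈ H`, is at most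
`C V(H) ∏ |A i|`, with the sieve product `V(H)` of the pattern.  And for at least `κ V(H) ∏ |A i|` of the
`n` the integers `j` in `[m, m + c K^4]` for which none of `j, j + 2, j + 6, j + 8` has a prime factor
`p ≤ b^{K/r}` are EXACTLY the `m + h`, `h ∈ H`, and then the four numbers have at most `r` prime factors.
In particular there is no further prime quadruplet at an integer of this interval.

The method is a Brun–Hooley sieve with weights, whose level of distribution is obtained from the Fourier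
transform of the set of the integers with restricted digits at rationals (large sieve in blocks of
digits), see `Pool/Agent/Y816/PD`; the other places are excluded by the upper bound for the patterns with
`k + 1` elements and an average of the sieve products (`Pool/Agent/H225/EP4`); two different quadruplets
with a common element are excluded modulo `5`.
-/

set_option autoImplicit false

namespace Pool.Agent.Results.MP_fc51f7_nt.ExactPatterns

open Finset Filter Polynomial

/-- The shape of a quadruplet: `m, m + 2, m + 6, m + 8`. -/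
def Q : Finset ℕ := {0, 2, 6, 8}

/-- `H` is admissible: the product of the `n + h + q`, `h ∈ H`, `q ∈ Q`, has no fixed prime divisor. -/
def Admissible (H : Finset ℕ) : Prop :=
  ∀ p : ℕ, p.Prime → ∃ n : ℕ, ∀ h ∈ H, ∀ q ∈ Q, ¬ p ∣ n + h + q

open Classical in
/-- The number of the `n` modulo `p` for which `p` divides one of the `n + h + q`, `h ∈ H`, `q ∈ Q`. -/
noncomputable def nu (H : Finset ℕ) (p : ℕ) : ℕ :=
  ((range p).filter (fun n : ℕ => ∃ h ∈ H, ∃ q ∈ Q, p ∣ n + h + q)).card

/-- The product of `1 - nu p / p` over the primes `p ≤ x`. -/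
noncomputable def V (H : Finset ℕ) (x : ℕ) : ℝ :=
  ∏ p ∈ (Icc 1 x).filter Nat.Prime, (1 - (nu H p : ℝ) / p)

open Classical in
/-- The number of the `n < b ^ K` in `T` whose `i`-th digit in base `b` belongs to `A i` for all
`i < K`. -/
noncomputable def count (b K : ℕ) (A : ℕ → Finset ℕ) (T : Set ℕ) : ℕ :=
  ((range (b ^ K)).filter (fun n => (∀ i < K, n / b ^ i % b ∈ A i) ∧ n ∈ T)).card

/-- The number of choices of the digits. -/
noncomputable def choices (K : ℕ) (A : ℕ → Finset ℕ) : ℝ := ∏ i ∈ range K, ((A i).card : ℝ)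

/-- All prime factors of `m` are larger than `z ^ (1 / r)`. -/
def Rough (r z m : ℕ) : Prop := ∀ p : ℕ, p.Prime → p ∣ m → z < p ^ r

open Pool.Agent.Y816.PD (NA ND ND_sub)
open Pool.Agent.W123.RU.Poly (Sys)
open Pool.Agent.W182.PW (lin lin_eval)
open Pool.Agent.TH977.PW (sys_lin)
open Pool.Agent.H225.EP (VV nuV exactVT NTr AdmP QH)

/-- the leading coefficients -/
def al : Fin 4 → ℕ := fun _ => 1

/-- the constant terms -/
def qq : Fin 4 → ℕ := ![0, 2, 6, 8]

/-- the constant terms -/
def be : Fin 4 → ℤ := fun i => qq i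

/-- the values -/
def v : Fin 4 → ℕ → ℕ := fun i m => m + qq i

lemma al_pos (i : Fin 4) : 0 < al i := by
  unfold al
  norm_num

lemma all4 (P : ℕ → Prop) (m : ℕ) : (∀ i, P (v i m)) ↔ ∀ q ∈ Q, P (m + q) := by
  unfold v Q
  constructor
  · intro h q hq
    simp only [mem_insert, mem_singleton] at hq
    rcases hq with rfl | rfl | rfl | rfl
    · exact h 0
    · exact h 1
    · exact h 2
    · exact h 3
  · intro h i
    fin_cases i
    · exact h 0 (by simp)
    · exact h 2 (by simp)
    · exact h 6 (by simp)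
    · exact h 8 (by simp)

lemma ex4 (P : ℕ → Prop) (m : ℕ) : (∃ i, P (v i m)) ↔ ∃ q ∈ Q, P (m + q) := by
  have h := all4 (fun x => ¬ P x) m
  constructor
  · intro ⟨i, hi⟩
    by_contra hcon
    push Not at hcon
    exact h.2 hcon i hi
  · intro ⟨q, hq, hP⟩
    by_contra hcon
    push Not at hcon
    exact h.1 hcon q hq hP

lemma sys : Sys (fun i => lin (al i) (be i)) := by
  refine sys_lin al be al_pos (fun i => ?_) (fun i j _ h => ?_) (fun p hp => ?_)
  · exact isCoprime_one_left
  · fin_cases i <;> fin_cases j <;> simp [al, be, qq] at h ⊢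
  · -- a residue for which no prime divides all
    have key : ∀ n : ℕ, (∀ i, ¬ p ∣ n + qq i) →
        ∃ n : ℕ, ∀ i, ¬ (p : ℤ) ∣ ((al i : ℕ) : ℤ) * (n : ℤ) + be i := by
      intro n hn
      refine ⟨n, fun i hi => hn i ?_⟩
      have e : ((al i : ℕ) : ℤ) * (n : ℤ) + be i = ((n + qq i : ℕ) : ℤ) := by
        unfold al be
        push_cast
        ring
      rw [e] at hi
      exact_mod_cast hi
    by_cases h3 : p = 3
    · subst h3
      exact key 5 (by decide)
    by_cases h7 : p = 7
    · subst h7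
      exact key 4 (by decide)
    · refine key 1 (fun i hi => ?_)
      have hcase : p ∣ 1 ∨ p ∣ 3 ∨ p ∣ 7 := by
        fin_cases i
        · left; exact hi
        · right; left; exact hi
        · right; right; exact hi
        · right; left
          have h9 : p ∣ 3 * 3 := hi
          rcases (Nat.Prime.dvd_mul hp).1 h9 with h | h <;> exact h
      rcases hcase with h | h | h
      · exact hp.one_lt.ne' (Nat.dvd_one.1 h)
      · exact h3 ((Nat.prime_dvd_prime_iff_eq hp Nat.prime_three).1 h)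
      · exact h7 ((Nat.prime_dvd_prime_iff_eq hp (by norm_num)).1 h)

lemma val (i : Fin 4) (m : ℕ) : (lin (al i) (be i)).eval (m : ℤ) = ((v i m : ℕ) : ℤ) := by
  rw [lin_eval]
  unfold v al be
  push_cast
  ring

lemma hv (i : Fin 4) (m : ℕ) : ((lin (al i) (be i)).eval (m : ℤ)).natAbs = v i m := by
  rw [val, Int.natAbs_natCast]

lemma ntr : NTr (fun i => lin (al i) (be i)) := by
  intro i i' a b hab h hadm
  have h0 := congrArg (fun P : ℤ[X] => P.eval 0) h
  simp only [eval_comp, eval_add, eval_X, eval_C, lin_eval] at h0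
  have h1 : (a : ℤ) + qq i = b + qq i' := by
    have : ((1 : ℕ) : ℤ) * 0 + (qq i : ℤ) = ((1 : ℕ) : ℤ) * (0 + ((b : ℤ) - a)) + (qq i' : ℤ) := h0
    push_cast at this
    linarith
  have h2 : a + qq i = b + qq i' := by exact_mod_cast h1
  have hcase : ¬ 5 ∣ (a + 5 * b - b) := by
    have hq : ∀ i, qq i = 0 ∨ qq i = 2 ∨ qq i = 6 ∨ qq i = 8 := by decide
    have hi := hq i
    have hi' := hq i'
    intro h5
    rcases hi with hi | hi | hi | hi <;> rcases hi' with hi' | hi' | hi' | hi' <;>
      rw [hi, hi'] at h2 <;> omega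
  obtain ⟨n, hn⟩ := hadm 5 Nat.prime_five
  have key : ∀ x ∈ ({a, b} : Finset ℕ), ∀ i, ¬ 5 ∣ n + x + qq i := by
    intro x hx i hd
    refine hn ⟨x, hx, i, ?_⟩
    rw [val]
    exact Int.natCast_dvd_natCast.2 hd
  have ha := key a (by simp)
  have hb := key b (by simp)
  have ha0 : ¬ 5 ∣ n + a + 0 := ha 0
  have ha2 : ¬ 5 ∣ n + a + 2 := ha 1
  have ha6 : ¬ 5 ∣ n + a + 6 := ha 2
  have ha8 : ¬ 5 ∣ n + a + 8 := ha 3
  have hb0 : ¬ 5 ∣ n + b + 0 := hb 0
  have hb2 : ¬ 5 ∣ n + b + 2 := hb 1
  have hb6 : ¬ 5 ∣ n + b + 6 := hb 2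
  have hb8 : ¬ 5 ∣ n + b + 8 := hb 3
  omega

lemma hge (i : Fin 4) (m : ℕ) (_ : (v i m).Prime) : m ≤ v i m := Nat.le_add_right _ _

lemma V_eq (H : Finset ℕ) (x : ℕ) : VV v H x = V H x := by
  classical
  unfold VV V nuV nu
  refine prod_congr rfl fun p _ => ?_
  have e : (range p).filter (fun n : ℕ => ∃ h ∈ H, ∃ i, p ∣ v i (n + h)) =
      (range p).filter (fun n : ℕ => ∃ h ∈ H, ∃ q ∈ Q, p ∣ n + h + q) := by
    refine filter_congr fun n _ => exists_congr fun h => and_congr_right fun _ => ?_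
    exact ex4 (fun x => p ∣ x) (n + h)
  congr 3
  convert congrArg Finset.card e

/-- **Exact patterns of consecutive almost prime quadruplets at integers with restricted digits,
uniformly in all admissible patterns with `k` elements and diameter up to a small multiple of the
expected mean distance of the places.** -/
theorem result (k D : ℕ) (hk : 1 ≤ k) :
    ∃ δ : ℝ, 0 < δ ∧ ∃ r₀ : ℕ, 2 ≤ r₀ ∧ ∀ r : ℕ, r₀ ≤ r → ∀ b : ℕ, 2 ≤ b →
      ∃ κ C c : ℝ, 0 < κ ∧ 0 < C ∧ 0 < c ∧
      ∀ᶠ K : ℕ in atTop, ∀ N : ℕ, N ≤ b ^ (D * K) →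
        ∀ H : Finset ℕ, H.card = k → (∀ h ∈ H, (h : ℝ) ≤ c * (K : ℝ) ^ 4) → Admissible H →
        ∀ A : ℕ → Finset ℕ, (∀ i < K, A i ⊆ range b) →
        (b : ℝ) ^ K ≤ Real.exp (δ * K) * choices K A →
        κ / (K : ℝ) ^ (4 * k) ≤ V H (b ^ K) ∧
        ((∃ e ∈ A 0, ∀ h ∈ H, ∀ q ∈ Q, (N + e + h + q).Coprime b) → (∃ e ∈ A (K - 1), e ≠ 0) →
          κ * choices K A * V H (b ^ K) ≤ count b K A {n | b ^ (K - 1) ≤ n ∧
            (∀ j : ℕ, (j : ℝ) ≤ c * (K : ℝ) ^ 4 →
              ((∀ q ∈ Q, Rough r (b ^ K) (N + n + j + q)) ↔ j ∈ H)) ∧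
            ∀ h ∈ H, ∀ q ∈ Q, (N + n + h + q).primeFactorsList.length ≤ r}) ∧
        (count b K A {n | ∀ h ∈ H, ∀ q ∈ Q, (N + n + h + q).Prime} : ℝ) ≤
          C * choices K A * V H (b ^ K) := by
  obtain ⟨δ, hδ, r₀, hr₀, h⟩ := exactVT (by norm_num) (fun i => lin (al i) (be i)) sys
    ntr v hv hge k D hk
  refine ⟨δ, hδ, r₀, hr₀, fun r hr b hb => ?_⟩
  obtain ⟨κ, C, c, hκ, hC, hc, h1⟩ := h r hr b hb
  refine ⟨κ, C, c, hκ, hC, hc, ?_⟩
  filter_upwards [h1] with K hK N hN H hHk hHc hadm A hA hprod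
  have hadm' : ∀ p : ℕ, p.Prime → ∃ n : ℕ, ∀ h ∈ H, ∀ i, ¬ p ∣ v i (n + h) := by
    intro p hp
    obtain ⟨n, hn⟩ := hadm p hp
    exact ⟨n, fun h hh => (all4 (fun x => ¬ p ∣ x) (n + h)).2 (hn h hh)⟩
  obtain ⟨h2, h3, h4⟩ := hK N hN H hHk hHc hadm' A hA hprod
  rw [V_eq] at h2 h3 h4
  refine ⟨h2, fun hcop htop => ?_, ?_⟩
  · obtain ⟨e, he, hce⟩ := hcop
    refine (h3 ⟨e, he, fun h hh => (all4 (fun x => x.Coprime b) (N + e + h)).2 (hce h hh)⟩ htop).trans
      (Nat.cast_le.2 (ND_sub fun n _ hn1 hn2 => ⟨hn1, ?_⟩))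
    obtain ⟨g1, g2, g3⟩ := hn2
    refine ⟨g1, fun j hj => ?_, fun h hh =>
      (all4 (fun x => x.primeFactorsList.length ≤ r) (N + n + h)).1 (g3 h hh)⟩
    rw [← g2 j hj]
    exact (all4 (fun x => Rough r (b ^ K) x) (N + n + j)).symm
  · refine le_trans (Nat.cast_le.2 (ND_sub fun n _ hn1 hn2 => ⟨hn1, ?_⟩)) h4
    exact fun h hh => (all4 (fun x => x.Prime) (N + n + h)).2 (hn2 h hh)

end Pool.Agent.Results.MP_fc51f7_nt.ExactPatterns
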