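import Pool.Agent.V11237.LP.PtShort

set_option autoImplicit false

/-!
# Five consecutive odd integers four of which are almost prime, in all short intervals: their number and
the laws of their gaps
-/

namespace Pool.Agent.Results.MP_fc51f7_nt.FourOfFiveLaws

open Finset
open Pool.Agent.V11237.LP

/-- `n` is odd and at least four (all but at most one) of the five numbers `n, n + 2, n + 4, n + 6, n + 8`
have no prime factor `p ≤ N ^ (1 / r)`. -/
def Good (N r n : ℕ) : Prop :=
  n % 2 = 1 ∧ ∃ j < 5, ∀ i < 5, i ≠ j → ∀ p : ℕ, p.Prime → (p : ℝ) ≤ (N : ℝ) ^ (1 / (r : ℝ)) →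
    ¬ p ∣ n + 2 * i

open Classical in
/-- The number of the good `n` in `(u, u + Y]` with fewer than `l` good integers in `[n - T, n)`. -/
noncomputable def G (N r l T u Y : ℕ) : ℕ :=
  ((Ioc u (u + Y)).filter (fun n => Good N r n ∧
    ((Ico (n - T) n).filter (fun s => Good N r s)).card < l)).card

/-- The density: the product of `1 - 4 / p` over the primes `5 < p ≤ N ^ (1 / r)`, divided by `30`. -/
noncomputable def V (N r : ℕ) : ℝ :=
  (∏ p ∈ (Ioc 5 ⌊(N : ℝ) ^ (1 / (r : ℝ))⌋₊).filter Nat.Prime, (1 - 4 / (p : ℝ))) / 30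

lemma good_iff (N r n : ℕ) (hN : (5 : ℝ) ≤ (N : ℝ) ^ (1 / (r : ℝ))) :
    Pt.Good 30 11 ![0, 2, 6, 8] N r n ↔ Good N r n := by
  constructor
  · rintro ⟨h1, h2⟩
    refine ⟨by omega, 2, by norm_num, ?_⟩
    intro i hi hi2 p hp hpz
    have h3 := h2 p hp hpz
    interval_cases i
    · simpa using h3 0
    · simpa using h3 1
    · exact absurd rfl hi2
    · simpa using h3 2
    · simpa using h3 3
  · rintro ⟨h1, j, hj, h2⟩
    have h3 : ∀ i < 5, i ≠ j → (n + 2 * i) % 3 ≠ 0 := by
      intro i hi hij h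
      exact h2 i hi hij 3 Nat.prime_three (by push_cast; linarith) (Nat.dvd_of_mod_eq_zero h)
    have h5 : ∀ i < 5, i ≠ j → (n + 2 * i) % 5 ≠ 0 := by
      intro i hi hij h
      exact h2 i hi hij 5 Nat.prime_five (by push_cast; linarith) (Nat.dvd_of_mod_eq_zero h)
    have hj2 : j = 2 := by
      interval_cases j
      · have a1 := h3 2 (by norm_num) (by norm_num)
        have a2 := h3 3 (by norm_num) (by norm_num)
        have a3 := h3 4 (by norm_num) (by norm_num)
        have hc : n % 3 = 0 ∨ n % 3 = 1 ∨ n % 3 = 2 := by omega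
        rcases hc with hc | hc | hc <;> omega
      · have a1 := h3 2 (by norm_num) (by norm_num)
        have a2 := h3 3 (by norm_num) (by norm_num)
        have a3 := h3 4 (by norm_num) (by norm_num)
        have hc : n % 3 = 0 ∨ n % 3 = 1 ∨ n % 3 = 2 := by omega
        rcases hc with hc | hc | hc <;> omega
      · rfl
      · have a1 := h3 0 (by norm_num) (by norm_num)
        have a2 := h3 1 (by norm_num) (by norm_num)
        have a3 := h3 2 (by norm_num) (by norm_num)
        have hc : n % 3 = 0 ∨ n % 3 = 1 ∨ n % 3 = 2 := by omega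
        rcases hc with hc | hc | hc <;> omega
      · have a1 := h3 0 (by norm_num) (by norm_num)
        have a2 := h3 1 (by norm_num) (by norm_num)
        have a3 := h3 2 (by norm_num) (by norm_num)
        have hc : n % 3 = 0 ∨ n % 3 = 1 ∨ n % 3 = 2 := by omega
        rcases hc with hc | hc | hc <;> omega
    subst hj2
    have a0 := h3 0 (by norm_num) (by norm_num)
    have a1 := h3 1 (by norm_num) (by norm_num)
    have b0 := h5 0 (by norm_num) (by norm_num)
    have b1 := h5 1 (by norm_num) (by norm_num)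
    have b3 := h5 3 (by norm_num) (by norm_num)
    have b4 := h5 4 (by norm_num) (by norm_num)
    have h30 : n % 30 = 11 := by
      have hc : n % 3 = 0 ∨ n % 3 = 1 ∨ n % 3 = 2 := by omega
      have hd : n % 5 = 0 ∨ n % 5 = 1 ∨ n % 5 = 2 ∨ n % 5 = 3 ∨ n % 5 = 4 := by omega
      rcases hc with hc | hc | hc <;> rcases hd with hd | hd | hd | hd | hd <;> omega
    refine ⟨h30, ?_⟩
    intro p hp hpz i
    fin_cases i
    · simpa using h2 0 (by norm_num) (by norm_num) p hp hpz
    · simpa using h2 1 (by norm_num) (by norm_num) p hp hpz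
    · simpa using h2 3 (by norm_num) (by norm_num) p hp hpz
    · simpa using h2 4 (by norm_num) (by norm_num) p hp hpz

/-- **Theorem.** Let `θ > 0`, `l₀`, `x₀` and `ε > 0`. There is `r₀` such that for all `r ≥ r₀` and all
large `N`: if `n ≤ N` is good, then `n, n + 2, n + 6, n + 8` have at most `r` prime factors; `V > 0`; and in
EVERY interval `(u, u + Y]` with `Y ≥ N ^ θ`, `u ≥ 30`, and for all `l`, `T` with `l ≤ l₀` or `T V ≤ x₀` the
number of the good `n` with fewer than `l` good integers in `[n - T, n)` is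
`Y V ∑_{j < l} e ^ (-T V) (T V) ^ j / j!` up to at most `ε Y V`. -/
theorem result (θ : ℝ) (hθ : 0 < θ) (l₀ : ℕ) (x₀ ε : ℝ) (hε : 0 < ε) :
    ∃ r₀ : ℕ, 2 ≤ r₀ ∧ ∀ r : ℕ, r₀ ≤ r → ∃ N₀ : ℕ, ∀ N : ℕ, N₀ ≤ N →
      ((∀ n : ℕ, n ≤ N → Good N r n → ∀ i ∈ ({0, 2, 6, 8} : Finset ℕ),
          (n + i).primeFactorsList.length ≤ r) ∧ 0 < V N r) ∧
      ∀ u Y : ℕ, 30 ≤ u → (N : ℝ) ^ θ ≤ Y → ∀ l T : ℕ, (l ≤ l₀ ∨ T * V N r ≤ x₀) →
        |(G N r l T u Y : ℝ) - Y * V N r *
          ∑ j ∈ range l, Real.exp (-(T * V N r)) * (T * V N r) ^ j / j.factorial| ≤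
        ε * (Y * V N r) := by
  classical
  obtain ⟨r0, hr0, h0⟩ := Pt.short Pt.pat_quad (by decide) θ hθ l₀ x₀ ε hε
  refine ⟨r0, hr0, ?_⟩
  intro r hr
  obtain ⟨N1, hN1⟩ := h0 r hr
  have hr' : (0 : ℝ) < r := by exact_mod_cast (by omega : 0 < r)
  have h5 : ∀ᶠ N : ℕ in Filter.atTop, (5 : ℝ) ≤ (N : ℝ) ^ (1 / (r : ℝ)) :=
    ((tendsto_rpow_atTop (by positivity)).comp tendsto_natCast_atTop_atTop).eventually_ge_atTop _
  obtain ⟨N2, hN2⟩ := Filter.eventually_atTop.1 h5
  refine ⟨max N1 N2, ?_⟩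
  intro N hN
  obtain ⟨⟨g1, g2⟩, g3⟩ := hN1 N ((le_max_left _ _).trans hN)
  have hz := hN2 N ((le_max_right _ _).trans hN)
  have hV : Pt.V 5 30 4 N r = V N r := by
    unfold Pt.V V
    norm_num
  rw [hV] at g2 g3
  refine ⟨⟨?_, g2⟩, ?_⟩
  · intro n hn hg i hi
    have h := g1 n hn ((good_iff N r n hz).2 hg)
    simp only [mem_insert, mem_singleton] at hi
    rcases hi with rfl | rfl | rfl | rfl
    · simpa using h 0
    · simpa using h 1
    · simpa using h 2
    · simpa using h 3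
  · intro u Y hu hY l T hlT
    have h := g3 u Y hu hY l T hlT
    have hG : Pt.GS 30 11 ![0, 2, 6, 8] N r l T u Y = G N r l T u Y := by
      unfold Pt.GS G
      simp only [fun n => good_iff N r n hz]
    rw [hG] at h
    exact h

end Pool.Agent.Results.MP_fc51f7_nt.FourOfFiveLaws
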