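import Pool.Agent.Results.MP_fc51f7_nt.RegularWindows
import Pool.Agent.V11285.SR

/-!
# Five consecutive odd integers containing a prime and three almost primes: regular windows around the members of sparse sequences

There are `r` and `c₁, c₂, K, κ > 0` such that for all `c > 1` and all `α > 0` outside a set of Hausdorff dimension less than `1`
the number `m = ⌊α n ^ c⌋` is regular for a proportion of at least `κ` of the `n ≤ N`, for all large `N`: every interval `(a, b]`
with `a ≤ m ≤ b` and `K log⁴ m ≤ b - a ≤ m` contains between `c₁ (b - a) / log⁴ m` and `c₂ (b - a) / log⁴ m` integers `l` such that `l` is prime and `l + 2`, `l + 6`, `l + 8` have at most `r` prime factors each, all of them larger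
than `m ^ (1 / r)`.
-/

set_option autoImplicit false

namespace Pool.Agent.Results.MP_fc51f7_nt.SparseRegularWindows

open Filter
open Pool.Agent.Results.MP_fc51f7_nt.RegularWindows (Regular)

/-- **Regular windows around the members of the sequences `⌊α n ^ c⌋`.** -/
theorem result : ∃ (r : ℕ) (c₁ c₂ K κ : ℝ), 0 < c₁ ∧ 0 < c₂ ∧ 0 < K ∧ 0 < κ ∧
    ∀ c : ℝ, 1 < c → ∃ E : Set ℝ, dimH E < 1 ∧ ∀ α : ℝ, 0 < α → α ∉ E → ∀ᶠ N : ℕ in atTop,
      κ * N ≤ ({n : ℕ | 1 ≤ n ∧ n ≤ N ∧ Regular r c₁ c₂ K ⌊α * (n : ℝ) ^ c⌋₊}.ncard : ℝ) := by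
  classical
  obtain ⟨r, c₁, c₂, K, κ, h1, h2, h3, h4, h⟩ := RegularWindows.result
  refine ⟨r, c₁, c₂, K, κ / 2, h1, h2, h3, by positivity, fun c hc => ?_⟩
  obtain ⟨E, hE, hs⟩ := Pool.Agent.V11285.SR.lower c hc (fun _ : Unit => Regular r c₁ c₂ K)
  refine ⟨E, hE, fun α hα hαE => ?_⟩
  have hlow : ∀ᶠ x : ℕ in atTop, κ * x ≤ (({n : ℕ | 1 ≤ n ∧ n ≤ x ∧ Regular r c₁ c₂ K n}.ncard : ℕ) : ℝ) := by
    filter_upwards [h] with x hx
    refine hx.trans (le_of_eq ?_)
    rw [Nat.cast_inj, ← Set.ncard_coe_finset]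
    congr 1
    ext n
    simp only [Set.mem_ofPred_eq, Finset.coe_filter, Finset.mem_Icc]
    tauto
  filter_upwards [hs α hα hαE () κ (κ / 2) (by positivity) hlow] with N hN
  linarith

end Pool.Agent.Results.MP_fc51f7_nt.SparseRegularWindows
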